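import Mathlib

set_option autoImplicit false

open Finset

namespace Pool.Agent.MP_ab1118_co.Game

/-- `short b t = ∑ i, max 0 (t - b i)`. -/
def short {n : ℕ} (b : Fin n → ℕ) (t : ℕ) : ℕ := ∑ i, (t - b i)

variable {k : ℕ}

/-- number of even piles `l` with `⌊x l / 2⌋ ≤ t` and `r l`. -/
def ev (x : Fin (k + 1) → ℕ) (t : ℕ) : ℕ := #{l | x l % 2 = 0 ∧ x l / 2 ≤ t}

def od (x : Fin (k + 1) → ℕ) (t : ℕ) : ℕ := #{l | x l % 2 = 1 ∧ x l / 2 ≤ t}

def evo (x : Fin (k + 1) → ℕ) (i : Fin (k + 1)) (t : ℕ) : ℕ :=
  #{l | l ≠ i ∧ x l % 2 = 0 ∧ x l / 2 ≤ t}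

def odo (x : Fin (k + 1) → ℕ) (i : Fin (k + 1)) (t : ℕ) : ℕ :=
  #{l | l ≠ i ∧ x l % 2 = 1 ∧ x l / 2 ≤ t}

def eps (x : Fin (k + 1) → ℕ) (i : Fin (k + 1)) (t : ℕ) : ℕ :=
  if x i % 2 = 0 ∧ x i / 2 ≤ t then 1 else 0

def del (x : Fin (k + 1) → ℕ) (i : Fin (k + 1)) (t : ℕ) : ℕ :=
  if x i % 2 = 1 ∧ x i / 2 ≤ t then 1 else 0

/-- the position after the move which spares pile `i`. -/
def mv (x : Fin (k + 1) → ℕ) (i : Fin (k + 1)) : Fin (k + 1) → ℕ :=
  fun l => if l = i then x l else x l - 1

def L (x : Fin (k + 1) → ℕ) (t : ℕ) : ℕ := short (fun l => x l / 2) t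

lemma card_eq_sum {n : ℕ} (p : Fin n → Prop) [DecidablePred p] :
    #{l | p l} = ∑ l, if p l then 1 else 0 := by
  simp

lemma L_succ (x : Fin (k + 1) → ℕ) (t : ℕ) : L x (t + 1) = L x t + ev x t + od x t := by
  unfold L short ev od
  rw [card_eq_sum, card_eq_sum, ← sum_add_distrib, ← sum_add_distrib]
  refine sum_congr rfl fun l _ => ?_
  beta_reduce
  split_ifs <;> omega

lemma high_succ (x : Fin (k + 1) → ℕ) (t : ℕ) :
    short (fun l => (x l + 1) / 2) (t + 1) = L x t + ev x t := by
  unfold L short ev
  rw [card_eq_sum, ← sum_add_distrib]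
  refine sum_congr rfl fun l _ => ?_
  beta_reduce
  split_ifs <;> omega

lemma L_zero (x : Fin (k + 1) → ℕ) : L x 0 = 0 := by simp [L, short]

lemma ev_split (x : Fin (k + 1) → ℕ) (i) (t : ℕ) : ev x t = evo x i t + eps x i t := by
  unfold ev evo eps
  rw [card_eq_sum, card_eq_sum]
  rw [← Finset.add_sum_erase univ _ (mem_univ i), ← Finset.add_sum_erase univ (fun l =>
    if l ≠ i ∧ x l % 2 = 0 ∧ x l / 2 ≤ t then 1 else 0) (mem_univ i)]
  simp only [ne_eq, not_true_eq_false, false_and, if_false, zero_add]
  rw [add_comm]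
  congr 1
  refine sum_congr rfl fun l hl => ?_
  simp [(mem_erase.1 hl).1]

lemma od_split (x : Fin (k + 1) → ℕ) (i) (t : ℕ) : od x t = odo x i t + del x i t := by
  unfold od odo del
  rw [card_eq_sum, card_eq_sum]
  rw [← Finset.add_sum_erase univ _ (mem_univ i), ← Finset.add_sum_erase univ (fun l =>
    if l ≠ i ∧ x l % 2 = 1 ∧ x l / 2 ≤ t then 1 else 0) (mem_univ i)]
  simp only [ne_eq, not_true_eq_false, false_and, if_false, zero_add]
  rw [add_comm]
  congr 1
  refine sum_congr rfl fun l hl => ?_
  simp [(mem_erase.1 hl).1]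

lemma eps_le (x : Fin (k + 1) → ℕ) (i) (t : ℕ) : eps x i t ≤ 1 := by
  unfold eps; split_ifs <;> omega

lemma del_le (x : Fin (k + 1) → ℕ) (i) (t : ℕ) : del x i t ≤ 1 := by
  unfold del; split_ifs <;> omega

lemma L_mv (x : Fin (k + 1) → ℕ) (i) (hi : ∀ l, l ≠ i → 1 ≤ x l) (t : ℕ) :
    L (mv x i) t = L x t + evo x i t := by
  unfold L short evo mv
  rw [card_eq_sum, ← sum_add_distrib]
  refine sum_congr rfl fun l _ => ?_
  by_cases h : l = i
  · simp [h]
  · have := hi l h
    simp only [h, if_false]
    split_ifs <;> omega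

lemma ev_mv (x : Fin (k + 1) → ℕ) (i) (hi : ∀ l, l ≠ i → 1 ≤ x l) (t : ℕ) :
    ev (mv x i) t = odo x i t + eps x i t := by
  rw [ev_split _ i]
  congr 1
  · unfold evo odo
    congr 1
    ext l
    simp only [mem_filter, mem_univ, true_and]
    constructor
    · rintro ⟨h, h1, h2⟩
      have := hi l h
      simp only [mv, h, if_false] at h1 h2
      exact ⟨h, by omega, by omega⟩
    · rintro ⟨h, h1, h2⟩
      have := hi l h
      simp only [mv, h, if_false]
      exact ⟨h, by omega, by omega⟩
  · unfold eps mv; simp

lemma ov_le (x : Fin (k + 1) → ℕ) (i) (t : ℕ) : evo x i t + odo x i t ≤ k := by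
  have h : evo x i t + odo x i t ≤ #(univ.erase i) := by
    unfold evo odo
    rw [← card_union_of_disjoint]
    · apply card_le_card
      intro l hl
      simp only [mem_union, mem_filter, mem_univ, true_and] at hl
      simp only [mem_erase, mem_univ, and_true]
      rcases hl with hl | hl <;> exact hl.1
    · rw [disjoint_left]
      intro l hl hl'
      simp only [mem_filter, mem_univ, true_and] at hl hl'
      omega
  rw [card_erase_of_mem (mem_univ i), card_univ, Fintype.card_fin] at h
  omega

lemma L_pos {x : Fin (k + 1) → ℕ} {t : ℕ} (h : 0 < L x t) : 0 < ev x t + od x t := by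
  by_contra hc
  have h1 : ev x t = 0 := by omega
  have h2 : od x t = 0 := by omega
  unfold ev at h1
  unfold od at h2
  rw [card_eq_zero, filter_eq_empty_iff] at h1 h2
  have : L x t = 0 := by
    unfold L short
    apply sum_eq_zero
    intro l _
    have a := h1 (mem_univ l)
    have b := h2 (mem_univ l)
    beta_reduce
    omega
  omega

lemma persist {x : Fin (k + 1) → ℕ} {t : ℕ} (h : t < L x t) {s : ℕ} (hs : t ≤ s) :
    s < L x s := by
  induction s, hs using Nat.le_induction with
  | base => exact h
  | succ s _ ih =>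
    have := L_pos (x := x) (t := s) (by omega)
    rw [L_succ]; omega

lemma low_le {x : Fin (k + 1) → ℕ} {q : ℕ} (h : L x q ≤ q) {t : ℕ} (ht : t ≤ q) :
    L x t ≤ t := by
  by_contra hc
  have := persist (not_le.1 hc) ht
  omega

/-- the exceptional all-odd positions. -/
def Exc (x : Fin (k + 1) → ℕ) (q : ℕ) : Prop :=
  (∀ i, x i % 2 = 1 ∧ x i / 2 ≤ q) ∧ L x q + k = q + 1

def Good (x : Fin (k + 1) → ℕ) : Prop :=
  ∃ q, L x q ≤ q ∧ (q + 1 < L x q + ev x q ∨ Exc x q)

lemma evo_mono (x : Fin (k + 1) → ℕ) (i) {s t : ℕ} (h : s ≤ t) : evo x i s ≤ evo x i t := by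
  unfold evo
  apply card_le_card
  intro l hl
  simp only [mem_filter, mem_univ, true_and] at hl ⊢
  exact ⟨hl.1, hl.2.1, hl.2.2.trans h⟩

lemma evo_zero (x : Fin (k + 1) → ℕ) (i) (hi : ∀ l, l ≠ i → 1 ≤ x l) : evo x i 0 = 0 := by
  unfold evo
  rw [card_eq_zero, filter_eq_empty_iff]
  rintro l _ ⟨h, h1, h2⟩
  have := hi l h
  omega

/-- A good position has no move to a good position. -/
lemma good_no_move (hk : 1 ≤ k) (x : Fin (k + 1) → ℕ) (i) (hi : ∀ l, l ≠ i → 1 ≤ x l)
    (hx : Good x) : ¬ Good (mv x i) := by
  obtain ⟨q, hq, hg⟩ := hx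
  rintro ⟨p, hp, hgp⟩
  have e1 := L_mv x i hi p
  have e2 := ev_mv x i hi p
  have e3 := ev_split x i p
  have e4 := od_split x i p
  have e5 := L_succ x p
  have e6 := ov_le x i p
  have e7 := eps_le x i p
  have e8 := del_le x i p
  have hLp : L x p ≤ p := by omega
  obtain ⟨l0, hl0⟩ : ∃ l : Fin (k + 1), l ≠ i := by
    have : Nontrivial (Fin (k + 1)) := Fin.nontrivial_iff_two_le.2 (by omega)
    exact exists_ne i
  rcases hg with hg | hg
  · have e9 := L_succ x q
    have hLq : q + 1 < L x (q + 1) := by omega
    have hpq : p ≤ q := by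
      by_contra hc
      have := persist hLq (s := p) (by omega)
      omega
    have e10 := ev_split x i q
    have e11 := eps_le x i q
    rcases Nat.lt_or_ge p q with h | h
    · have hp1 := low_le hq (t := p + 1) (by omega)
      rcases hgp with hgp | hgp
      · omega
      · obtain ⟨ho, hs⟩ := hgp
        -- all the other piles of `x` are even, pile `i` is odd
        have hoi : x i % 2 = 1 ∧ x i / 2 ≤ p := by simpa [mv] using ho i
        have ho' : ∀ l, l ≠ i → x l % 2 = 0 ∧ x l / 2 ≤ p + 1 := by
          intro l hl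
          have h1 := hi l hl
          have h2 := ho l
          simp only [mv, hl, if_false] at h2
          omega
        have a1 : odo x i p = 0 := by
          unfold odo
          rw [card_eq_zero, filter_eq_empty_iff]
          rintro l _ ⟨h, h1, h2⟩
          have := ho' l h
          omega
        have a2 : evo x i (p + 1) = k := by
          unfold evo
          have : (univ.filter fun l => l ≠ i ∧ x l % 2 = 0 ∧ x l / 2 ≤ p + 1) =
              univ.erase i := by
            ext l
            simp only [mem_filter, mem_univ, true_and, mem_erase, and_true]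
            exact ⟨fun h => h.1, fun h => ⟨h, ho' l h⟩⟩
          rw [this, card_erase_of_mem (mem_univ i), card_univ, Fintype.card_fin]
          omega
        have a3 : del x i p = 1 := by unfold del; simp [hoi]
        have a4 : eps x i p = 0 := by unfold eps; simp [hoi.1]
        have a5 : del x i (p + 1) = 1 := by
          unfold del; rw [if_pos]; exact ⟨hoi.1, by omega⟩
        have a6 : eps x i (p + 1) = 0 := by unfold eps; simp [hoi.1]
        have b1 := ev_split x i (p + 1)
        have b2 := od_split x i (p + 1)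
        have b3 := L_succ x (p + 1)
        have b4 : q = p + 1 := by
          by_contra hc
          have := low_le hq (t := p + 2) (by omega)
          have b5 : L x (p + 1 + 1) = L x (p + 2) := rfl
          omega
        subst b4
        omega
    · have hpq' : p = q := by omega
      subst hpq'
      omega
  · obtain ⟨ho, hs⟩ := hg
    have hev : ∀ t, evo x i t = 0 := by
      intro t
      unfold evo
      rw [card_eq_zero, filter_eq_empty_iff]
      rintro l _ ⟨h, h1, h2⟩
      have := ho l
      omega
    have heps : ∀ t, eps x i t = 0 := by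
      intro t
      unfold eps
      have := ho i
      simp [this.1]
    have c1 := hev p
    have c2 := heps p
    have c3 := hev q
    have c4 := heps q
    have e9 := L_succ x q
    have e10 := ev_split x i q
    have e11 := od_split x i q
    have hod : od x q = k + 1 := by
      unfold od
      have : (univ.filter fun l => x l % 2 = 1 ∧ x l / 2 ≤ q) = univ := by
        ext l
        simp only [mem_filter, mem_univ, true_and, iff_true]
        exact ho l
      rw [this, card_univ, Fintype.card_fin]
    have hLq : q + 1 < L x (q + 1) := by omega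
    have hpq : p ≤ q := by
      by_contra hc
      have := persist hLq (s := p) (by omega)
      omega
    rcases hgp with hgp | hgp
    · rcases Nat.lt_or_ge p q with h | h
      · have hp1 := low_le hq (t := p + 1) (by omega)
        omega
      · have hpq' : p = q := by omega
        subst hpq'
        omega
    · obtain ⟨ho', hs'⟩ := hgp
      have h1 := ho' l0
      have h2 := ho l0
      simp only [mv, hl0, if_false] at h1
      omega

lemma exists_q (hk : 1 ≤ k) (x : Fin (k + 1) → ℕ) :
    ∃ q, L x q ≤ q ∧ q + 1 < L x (q + 1) := by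
  have hex : ∃ t, t < L x t := by
    refine ⟨2 * (∑ l, x l / 2) + 1, ?_⟩
    obtain ⟨s, hs⟩ : ∃ s, s = ∑ l, x l / 2 := ⟨_, rfl⟩
    rw [← hs]
    unfold L short
    obtain ⟨m, hm⟩ : ∃ m, m = 2 * s + 1 := ⟨_, rfl⟩
    rw [← hm]
    have h1 : ∑ i : Fin (k + 1), m ≤
        ∑ i : Fin (k + 1), ((m - x i / 2) + x i / 2) :=
      sum_le_sum fun i _ => by omega
    rw [sum_add_distrib, ← hs, sum_const, card_univ, Fintype.card_fin, smul_eq_mul] at h1
    have h2 : 2 * m ≤ (k + 1) * m := Nat.mul_le_mul_right _ (by omega)
    beta_reduce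
    omega
  classical
  have hf := Nat.find_spec hex
  have hm := fun m => @Nat.find_min _ _ hex m
  have h0 : Nat.find hex ≠ 0 := by
    intro h
    rw [h, L_zero] at hf
    omega
  refine ⟨Nat.find hex - 1, ?_, ?_⟩
  · exact not_lt.1 (hm _ (by omega))
  · rw [Nat.sub_add_cancel (by omega)]
    exact hf

/-- From a position that is not good there is a move to a good position. -/
lemma exists_move (hk : 1 ≤ k) (x : Fin (k + 1) → ℕ) (hx : ¬ Good x) :
    ∃ i, (∀ l, l ≠ i → 1 ≤ x l) ∧ Good (mv x i) := by
  obtain ⟨q, hq, hq1⟩ := exists_q hk x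
  have hn1 : ¬ (q + 1 < L x q + ev x q) := fun h => hx ⟨q, hq, Or.inl h⟩
  have hn2 : ¬ Exc x q := fun h => hx ⟨q, hq, Or.inr h⟩
  have e0 := L_succ x q
  by_cases he : ev x q = 0
  · have hz : ∀ l, 1 ≤ x l := by
      intro l
      by_contra hc
      unfold ev at he
      rw [card_eq_zero, filter_eq_empty_iff] at he
      exact he (mem_univ l) (by omega)
    by_cases hall : ∀ i, x i / 2 ≤ q
    · -- all piles are odd and small
      have hodd : ∀ i, x i % 2 = 1 ∧ x i / 2 ≤ q := by
        intro i
        refine ⟨?_, hall i⟩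
        unfold ev at he
        rw [card_eq_zero, filter_eq_empty_iff] at he
        have := he (mem_univ i)
        have := hall i
        omega
      have i : Fin (k + 1) := 0
      have e1 := L_mv x i (fun l _ => hz l) q
      have e2 := ev_mv x i (fun l _ => hz l) q
      have e3 := ev_split x i q
      have e4 := od_split x i q
      have hod : od x q = k + 1 := by
        unfold od
        have : (univ.filter fun l => x l % 2 = 1 ∧ x l / 2 ≤ q) = univ := by
          ext l
          simp only [mem_filter, mem_univ, true_and, iff_true]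
          exact hodd l
        rw [this, card_univ, Fintype.card_fin]
      have e5 := del_le x i q
      have hs : L x q + k ≠ q + 1 := fun h => hn2 ⟨hodd, h⟩
      have e6 := ov_le x i q
      refine ⟨i, fun l _ => hz l, q, by omega, Or.inl (by omega)⟩
    · push Not at hall
      obtain ⟨i, hi⟩ := hall
      have e1 := L_mv x i (fun l _ => hz l) q
      have e2 := ev_mv x i (fun l _ => hz l) q
      have e3 := ev_split x i q
      have e4 := od_split x i q
      have e5 : del x i q = 0 := by unfold del; rw [if_neg]; omega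
      refine ⟨i, fun l _ => hz l, q, by omega, Or.inl (by omega)⟩
  · -- there is an even small pile
    obtain ⟨i, hi1, hi2⟩ : ∃ i, (x i % 2 = 0 ∧ x i / 2 ≤ q) ∧ ∀ l, l ≠ i → 1 ≤ x l := by
      by_cases hz : ∃ l, x l = 0
      · obtain ⟨l, hl⟩ := hz
        refine ⟨l, by omega, ?_⟩
        intro m hm
        by_contra hc
        -- two empty piles
        have h1 : 2 ≤ ev x 0 := by
          have : ({l, m} : Finset (Fin (k + 1))) ⊆
              univ.filter fun l => x l % 2 = 0 ∧ x l / 2 ≤ 0 := by
            intro y hy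
            simp only [mem_insert, mem_singleton] at hy
            simp only [mem_filter, mem_univ, true_and]
            rcases hy with rfl | rfl <;> omega
          calc 2 = #({l, m} : Finset (Fin (k + 1))) := (card_pair (Ne.symm hm)).symm
            _ ≤ _ := card_le_card this
        have h2 := L_succ x 0
        have h3 := L_zero x
        have hq0 : q = 0 := by
          by_contra hc0
          have := low_le hq (t := 1) (by omega)
          have h4 : L x (0 + 1) = L x 1 := rfl
          omega
        subst hq0
        omega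
      · push Not at hz
        obtain ⟨i, hi⟩ := card_pos.1 (Nat.pos_of_ne_zero he)
        simp only [mem_filter, mem_univ, true_and] at hi
        exact ⟨i, hi, fun l _ => Nat.pos_of_ne_zero (hz l)⟩
    have e1 := L_mv x i hi2 q
    have e2 := ev_mv x i hi2 q
    have e3 := ev_split x i q
    have e4 := od_split x i q
    have e5 : eps x i q = 1 := by unfold eps; rw [if_pos hi1]
    have e6 : del x i q = 0 := by unfold del; rw [if_neg]; omega
    exact ⟨i, hi2, q, by omega, Or.inl (by omega)⟩

theorem mem_iff_good (hk : 1 ≤ k) (P : Set (Fin (k + 1) → ℕ))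
    (hP : ∀ x : Fin (k + 1) → ℕ, x ∈ P ↔
      ∀ S : Finset (Fin (k + 1)), S.card = k → (∀ i ∈ S, 1 ≤ x i) →
        (fun i => if i ∈ S then x i - 1 else x i) ∉ P) (x : Fin (k + 1) → ℕ) :
    x ∈ P ↔ Good x := by
  induction hs : ∑ i, x i using Nat.strong_induction_on generalizing x with
  | _ s ih =>
    have hmv : ∀ i, (∀ l, l ≠ i → 1 ≤ x l) → (mv x i ∈ P ↔ Good (mv x i)) := by
      intro i hi
      refine ih _ ?_ (mv x i) rfl
      obtain ⟨l0, hl0⟩ : ∃ l : Fin (k + 1), l ≠ i := by
        have : Nontrivial (Fin (k + 1)) := Fin.nontrivial_iff_two_le.2 (by omega)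
        exact exists_ne i
      rw [← hs]
      apply sum_lt_sum
      · intro l _; unfold mv; split_ifs <;> omega
      · refine ⟨l0, mem_univ _, ?_⟩
        have := hi l0 hl0
        simp only [mv, hl0, if_false]
        omega
    have hS : ∀ i, (fun j => if j ∈ univ.erase i then x j - 1 else x j) = mv x i := by
      intro i
      funext j
      unfold mv
      by_cases h : j = i <;> simp [h]
    rw [hP]
    constructor
    · intro h
      by_contra hg
      obtain ⟨i, hi, hgi⟩ := exists_move hk x hg
      have h1 := h (univ.erase i)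
        (by rw [card_erase_of_mem (mem_univ i), card_univ, Fintype.card_fin]; rfl)
        (fun l hl => hi l (mem_erase.1 hl).1)
      rw [hS] at h1
      exact h1 ((hmv i hi).2 hgi)
    · intro hg S hSc hSx
      have hc : #(univ \ S) = 1 := by
        rw [card_sdiff_of_subset (subset_univ S), hSc, card_univ, Fintype.card_fin]; omega
      obtain ⟨i, hi⟩ := card_eq_one.1 hc
      have hSe : S = univ.erase i := by
        ext l
        have : l ∈ univ \ S ↔ l = i := by rw [hi, mem_singleton]
        simp only [mem_sdiff, mem_univ, true_and] at this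
        simp only [mem_erase, mem_univ, and_true]
        tauto
      subst hSe
      have hi' : ∀ l, l ≠ i → 1 ≤ x l := fun l hl => hSx l (mem_erase.2 ⟨hl, mem_univ l⟩)
      rw [hS, hmv i hi']
      exact good_no_move hk x i hi' hg

end Pool.Agent.MP_ab1118_co.Game
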