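import Pool.Agent.MP_ab1118_co.Game

set_option autoImplicit false

open Finset Pointwise

namespace Pool.Agent.MP_ab1118_co.Semi

open Pool.Agent.MP_ab1118_co.Game

lemma sl_le {M : Type} [AddCommMonoid M] [AddMonoid.FG M] (a b : ℕ) (f g : M →+ ℕ) :
    IsSemilinearSet {v : M | a + f v ≤ b + g v} := by
  have h := isSemilinearSet_setOfPred_eq (M := M × ℕ) a b
    (f.comp (AddMonoidHom.fst M ℕ) + AddMonoidHom.snd M ℕ) (g.comp (AddMonoidHom.fst M ℕ))
  have h2 := h.image (AddMonoidHom.fst M ℕ)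
  convert h2 using 1
  ext v
  simp only [Set.mem_ofPred_eq, Set.mem_image, AddMonoidHom.add_apply, AddMonoidHom.comp_apply,
    AddMonoidHom.coe_fst, AddMonoidHom.coe_snd, Prod.exists]
  constructor
  · intro hv
    exact ⟨v, b + g v - (a + f v), by omega, rfl⟩
  · rintro ⟨w, s, hs, rfl⟩
    omega

variable {k : ℕ}

abbrev V (k : ℕ) : Type := (Fin (k + 1) → ℕ) × (Fin (k + 1) → ℕ) × ℕ

def pb (i : Fin (k + 1)) : V k →+ ℕ :=
  (Pi.evalAddMonoidHom (fun _ : Fin (k + 1) => ℕ) i).comp (AddMonoidHom.fst _ _)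

def pu (i : Fin (k + 1)) : V k →+ ℕ :=
  (Pi.evalAddMonoidHom (fun _ : Fin (k + 1) => ℕ) i).comp
    ((AddMonoidHom.fst _ _).comp (AddMonoidHom.snd _ _))

def pq : V k →+ ℕ := (AddMonoidHom.snd _ _).comp (AddMonoidHom.snd _ _)

lemma pb_apply (i : Fin (k + 1)) (v : V k) : pb i v = v.1 i := rfl
lemma pu_apply (i : Fin (k + 1)) (v : V k) : pu i v = v.2.1 i := rfl
lemma pq_apply (v : V k) : pq v = v.2.2 := rfl

def dbl : V k →+ (Fin (k + 1) → ℕ) := (2 : ℕ) • AddMonoidHom.fst _ _

lemma dbl_apply (v : V k) (i : Fin (k + 1)) : dbl v i = 2 * v.1 i := by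
  simp [dbl]

def SA (o : Fin (k + 1) → Fin 2) (J : Finset (Fin (k + 1))) : Set (V k) :=
  (⋂ i, {v | 0 + pq v ≤ 0 + (pb i + pu i) v}) ∩ {v | 0 + (∑ i, pu i : V k →+ ℕ) v ≤ 0 + pq v} ∩
    {v | (2 + ∑ i ∈ J, (o i : ℕ)) + ((pq + ∑ i ∈ J, pb i : V k →+ ℕ) v) ≤
      #J + ((#J • pq : V k →+ ℕ) v)}

lemma semi_SA (o : Fin (k + 1) → Fin 2) (J : Finset (Fin (k + 1))) :
    IsSemilinearSet (SA o J) :=
  ((IsSemilinearSet.iInter fun _ => sl_le _ _ _ _).inter (sl_le _ _ _ _)).inter (sl_le _ _ _ _)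

lemma mem_SA (o : Fin (k + 1) → Fin 2) (J : Finset (Fin (k + 1))) (v : V k) :
    v ∈ SA o J ↔ (∀ i, v.2.2 ≤ v.1 i + v.2.1 i) ∧ ∑ i, v.2.1 i ≤ v.2.2 ∧
      v.2.2 + 2 + ∑ i ∈ J, (v.1 i + (o i : ℕ)) ≤ #J * (v.2.2 + 1) := by
  simp only [SA, Set.mem_inter_iff, Set.mem_iInter, Set.mem_ofPred_eq, AddMonoidHom.add_apply,
    AddMonoidHom.finsetSum_apply, AddMonoidHom.smul_apply, pb_apply, pu_apply, pq_apply,
    smul_eq_mul, zero_add, sum_add_distrib, mul_add, mul_one, and_assoc]
  refine and_congr Iff.rfl (and_congr Iff.rfl ?_)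
  constructor <;> intro h <;> omega

def SB : Set (V k) :=
  (⋂ i, {v | 0 + pb i v ≤ 0 + pq v}) ∩ {v | k + (k • pq : V k →+ ℕ) v = 1 + (∑ i, pb i : V k →+ ℕ) v}

lemma semi_SB : IsSemilinearSet (SB (k := k)) :=
  (IsSemilinearSet.iInter fun _ => sl_le _ _ _ _).inter (isSemilinearSet_setOfPred_eq _ _ _ _)

lemma mem_SB (v : V k) : v ∈ SB ↔ (∀ i, v.1 i ≤ v.2.2) ∧ k + k * v.2.2 = 1 + ∑ i, v.1 i := by
  simp only [SB, Set.mem_inter_iff, Set.mem_iInter, Set.mem_ofPred_eq,
    AddMonoidHom.finsetSum_apply, AddMonoidHom.smul_apply, pb_apply, pq_apply,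
    smul_eq_mul, zero_add]

theorem good_eq (hk : 1 ≤ k) : {x : Fin (k + 1) → ℕ | Good x} =
    (⋃ o : Fin (k + 1) → Fin 2, ⋃ J : Finset (Fin (k + 1)),
      (fun i => ((o i : Fin 2) : ℕ)) +ᵥ (dbl '' SA o J)) ∪
    ((fun _ : Fin (k + 1) => 1) +ᵥ (dbl '' SB)) := by
  ext x
  simp only [Set.mem_ofPred_eq, Set.mem_union, Set.mem_iUnion, Set.mem_vadd_set, Set.mem_image,
    exists_exists_and_eq_and, mem_SA, mem_SB]
  constructor
  · rintro ⟨q, hq, h | h⟩
    · left
      refine ⟨fun i => ⟨x i % 2, Nat.mod_lt _ (by norm_num)⟩, univ.filter fun i => (x i + 1) / 2 ≤ q + 1,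
        (fun i => x i / 2, fun i => q - x i / 2, q), ⟨fun i => ?_, ?_, ?_⟩, ?_⟩
      · dsimp only; omega
      · exact hq
      · rw [← high_succ] at h
        unfold short at h
        dsimp only at h ⊢
        have h1 : ∑ i, (q + 1 - (x i + 1) / 2) =
            ∑ i ∈ univ.filter (fun i : Fin (k + 1) => (x i + 1) / 2 ≤ q + 1), (q + 1 - (x i + 1) / 2) := by
          rw [sum_filter]
          refine sum_congr rfl fun i _ => ?_
          split_ifs <;> omega
        have h2 : ∑ i ∈ univ.filter (fun i : Fin (k + 1) => (x i + 1) / 2 ≤ q + 1), (q + 1 - (x i + 1) / 2) +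
            ∑ i ∈ univ.filter (fun i : Fin (k + 1) => (x i + 1) / 2 ≤ q + 1), (x i / 2 + x i % 2) =
            #(univ.filter (fun i : Fin (k + 1) => (x i + 1) / 2 ≤ q + 1)) * (q + 1) := by
          rw [← sum_add_distrib, ← smul_eq_mul, ← sum_const]
          refine sum_congr rfl fun i hi => ?_
          rw [mem_filter] at hi
          omega
        omega
      · funext i
        simp only [vadd_eq_add, Pi.add_apply, dbl_apply]
        omega
    · right
      obtain ⟨ho, hs⟩ := h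
      refine ⟨(fun i => x i / 2, 0, q), ⟨fun i => (ho i).2, ?_⟩, ?_⟩
      · dsimp only
        have h1 : L x q + ∑ i, x i / 2 = (k + 1) * q := by
          unfold L short
          rw [← sum_add_distrib]
          have : ∀ i ∈ (univ : Finset (Fin (k + 1))), (q - x i / 2) + x i / 2 = q :=
            fun i _ => by have := (ho i).2; omega
          rw [sum_congr rfl this, sum_const, card_univ, Fintype.card_fin, smul_eq_mul]
        have h2 : (k + 1) * q = k * q + q := by ring
        omega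
      · funext i
        have := (ho i).1
        simp only [vadd_eq_add, Pi.add_apply, dbl_apply]
        omega
  · rintro (⟨o, J, ⟨b, u, q⟩, ⟨h1, h2, h3⟩, rfl⟩ | ⟨⟨b, u, q⟩, ⟨h1, h2⟩, rfl⟩)
    · dsimp only at h1 h2 h3
      have hx : ∀ i, ((fun i => ((o i : Fin 2) : ℕ)) +ᵥ dbl ((b, u, q) : V k)) i =
          (o i : ℕ) + 2 * b i := by
        intro i
        simp only [vadd_eq_add, Pi.add_apply, dbl_apply]
      have ho : ∀ i, (o i : ℕ) < 2 := fun i => (o i).2
      refine ⟨q, ?_, Or.inl ?_⟩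
      · unfold L short
        refine le_trans (sum_le_sum fun i _ => ?_) h2
        have := h1 i
        have := ho i
        dsimp only
        rw [hx]
        omega
      · rw [← high_succ]
        unfold short
        have h4 : ∑ i ∈ J, (q + 1 - (b i + (o i : ℕ))) ≤
            ∑ i, (q + 1 - ((((fun i => ((o i : Fin 2) : ℕ)) +ᵥ dbl ((b, u, q) : V k)) i) + 1) / 2)
            := by
          refine le_trans (sum_le_sum_of_subset (subset_univ J)) (sum_le_sum fun i _ => ?_)
          have := ho i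
          rw [hx]
          omega
        have h5 : #J * (q + 1) ≤ ∑ i ∈ J, (q + 1 - (b i + (o i : ℕ))) +
            ∑ i ∈ J, (b i + (o i : ℕ)) := by
          rw [← sum_add_distrib, ← smul_eq_mul, ← sum_const]
          exact sum_le_sum fun i _ => by omega
        dsimp only
        omega
    · dsimp only at h1 h2
      have hx : ∀ i, ((fun _ : Fin (k + 1) => 1) +ᵥ dbl ((b, u, q) : V k)) i =
          1 + 2 * b i := by
        intro i
        simp only [vadd_eq_add, Pi.add_apply, dbl_apply]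
      have h3 : L ((fun _ : Fin (k + 1) => 1) +ᵥ dbl ((b, u, q) : V k)) q + ∑ i, b i =
          (k + 1) * q := by
        unfold L short
        rw [← sum_add_distrib]
        have : ∀ i ∈ (univ : Finset (Fin (k + 1))),
            (q - ((fun _ : Fin (k + 1) => 1) +ᵥ dbl ((b, u, q) : V k)) i / 2) + b i = q :=
          fun i _ => by have := h1 i; rw [hx]; omega
        rw [sum_congr rfl this, sum_const, card_univ, Fintype.card_fin, smul_eq_mul]
      have h4 : (k + 1) * q = k * q + q := by ring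
      refine ⟨q, by omega, Or.inr ⟨fun i => ?_, by omega⟩⟩
      have := h1 i
      rw [hx]
      omega

theorem semilinear_good (hk : 1 ≤ k) : IsSemilinearSet {x : Fin (k + 1) → ℕ | Good x} := by
  rw [good_eq hk]
  refine IsSemilinearSet.union ?_ ?_
  · refine IsSemilinearSet.iUnion fun o => IsSemilinearSet.iUnion fun J => ?_
    exact ((semi_SA o J).image dbl).vadd _
  · exact ((semi_SB).image dbl).vadd _

end Pool.Agent.MP_ab1118_co.Semi
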